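import Pool.Agent.X205.DiscAP.Comb

/-!
MP_7b119f_an, Q1 and Q2 (negative answers). There is a countable, totally bounded metric space `M`
all of whose points are isolated (so `M` is discrete) such that for every `p` in `(0, 1]` the
Lipschitz free `p`-space over `M` fails the approximation property; in particular the Lipschitz free
Banach space over `M` (`p = 1`) fails the approximation property.

`IsLipschitzFree p M o Z δ` and `HasAP p Z` are in `Pool.Agent.H548R3.PDefs`: a `p`-norm is recorded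
through its `p`-th power, the group norm of `Z`.
-/

set_option autoImplicit false

open Set Filter Topology Metric
open Pool.Agent.H548R3.PFree Pool.Agent.Y53.FP Pool.Agent.X205.DiscAP

namespace Pool.Agent.Results.MP_7b119f_an.DiscreteNoAP

/-- **MP_7b119f_an, Q1 and Q2: the answers are negative.** -/
theorem result : ∃ (M : Type) (_ : MetricSpace M), Nonempty M ∧ Countable M ∧
    TotallyBounded (univ : Set M) ∧
    (∀ x : M, ∃ r : ℝ, 0 < r ∧ ∀ y : M, dist y x < r → y = x) ∧
    ∀ (o : M) (p : ℝ), 0 < p → p ≤ 1 →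
      (∃ (Z : Type) (_ : NormedAddCommGroup Z) (_ : Module ℝ Z) (δ : M → Z),
        IsLipschitzFree p M o Z δ) ∧
      ∀ (Z : Type) [NormedAddCommGroup Z] [Module ℝ Z] (δ : M → Z),
        IsLipschitzFree p M o Z δ → ¬ HasAP p Z := by
  obtain ⟨⟨C, hCc, hCh, hC⟩, -⟩ := main_X Pool.Agent.H548R3.NoAP.E ap_E
  have hCne : C.Nonempty := by
    obtain ⟨e⟩ := hCh
    exact ⟨_, (e.symm fun _ => true).2⟩
  have hnet : ∀ n : ℕ, ∃ F : Set Pool.Agent.H548R3.NoAP.E, F ⊆ C ∧ F.Finite ∧
      ∀ x ∈ C, ∃ y ∈ F, dist x y < lev n := by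
    intro n
    obtain ⟨F, h1, h2, h3⟩ := hCc.finite_cover_balls (lev_pos n)
    refine ⟨F, h1, h2, fun x hx => ?_⟩
    have h4 := h3 hx
    rw [mem_iUnion₂] at h4
    obtain ⟨y, hy, hxy⟩ := h4
    exact ⟨y, hy, hxy⟩
  choose F hFC hfin hF using hnet
  have hne : Nonempty (combM F) := by
    obtain ⟨x, hx⟩ := hCne
    obtain ⟨y, hy, -⟩ := hF 0 x hx
    exact ⟨⟨(y, lev 0), 0, rfl, hy⟩⟩
  refine ⟨combM F, inferInstance, hne, (combM_countable hfin).to_subtype,
    combM_totallyBounded hCc hFC, combM_discrete hfin, fun o p h0 h1 => ?_⟩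
  have hp : Fact (0 < p ∧ p ≤ 1) := ⟨h0, h1⟩
  have hN : FreeFailsAP p (combN C F) (inc C F o) :=
    hC (combN C F) (inc C F o) (fun s => ⟨((s : Pool.Agent.H548R3.NoAP.E), 0), Or.inl ⟨s.2, rfl⟩⟩)
      (fun q => q.1.1)
      ⟨1, LipschitzWith.of_dist_le_mul fun x y => by
        change dist ((x : Pool.Agent.H548R3.NoAP.E), (0 : ℝ)) (y, 0) ≤ _
        rw [Prod.dist_eq, dist_self, NNReal.coe_one, one_mul]
        exact max_le le_rfl dist_nonneg⟩
      ⟨1, LipschitzWith.of_dist_le_mul fun x y => by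
        rw [NNReal.coe_one, one_mul]
        exact le_max_left _ _⟩
      (fun s => rfl) p h0 h1
  exact fails_of_dense (inc_isometry C F) (inc_dense hF) hN

end Pool.Agent.Results.MP_7b119f_an.DiscreteNoAP
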